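import Mathlib

/-!
# Extremal graphs for diameter over average distance

For every `n ≥ 3` the maximum of (diameter)/(average distance) over all connected graphs on `n`
vertices is attained by a balanced bug.
-/

namespace Pool.Agent.Results.MP_aedb6c_co.DiamOverAvg

set_option linter.unusedSectionVars false

open SimpleGraph Finset

/-- The average distance: the mean of `d(u, v)` over all ordered (equivalently unordered) pairs of
distinct vertices; the terms `u = v` contribute `0` to the sum. -/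
noncomputable def avgDist {V : Type} [Fintype V] (G : SimpleGraph V) : ℚ :=
  (∑ u : V, ∑ v : V, (G.dist u v : ℚ)) / (Fintype.card V * (Fintype.card V - 1))

/-- The ratio diameter / average distance. -/
noncomputable def ratio {V : Type} [Fintype V] (G : SimpleGraph V) : ℚ :=
  (G.diam : ℚ) / avgDist G

/-- Adjacency of the bug: `inl a` are the vertices of the complete graph `K_p` with the edge
between `u = inl 0` and `v = inl 1` deleted, `inr (inl i)` the path of `k₁` vertices attached to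
`u`, and `inr (inr i)` the path of `k₂` vertices attached to `v`. -/
def bugAdj (p k₁ k₂ : ℕ) : Fin p ⊕ (Fin k₁ ⊕ Fin k₂) → Fin p ⊕ (Fin k₁ ⊕ Fin k₂) → Prop
  | .inl a, .inl b => a ≠ b ∧ ¬ (a.val = 0 ∧ b.val = 1) ∧ ¬ (a.val = 1 ∧ b.val = 0)
  | .inl a, .inr (.inl i) => a.val = 0 ∧ i.val = 0
  | .inr (.inl i), .inl a => a.val = 0 ∧ i.val = 0
  | .inl a, .inr (.inr i) => a.val = 1 ∧ i.val = 0
  | .inr (.inr i), .inl a => a.val = 1 ∧ i.val = 0
  | .inr (.inl i), .inr (.inl j) => i.val + 1 = j.val ∨ j.val + 1 = i.val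
  | .inr (.inr i), .inr (.inr j) => i.val + 1 = j.val ∨ j.val + 1 = i.val
  | .inr (.inl _), .inr (.inr _) => False
  | .inr (.inr _), .inr (.inl _) => False

/-- The bug `Bug_{p,k₁,k₂}`. -/
def bug (p k₁ k₂ : ℕ) : SimpleGraph (Fin p ⊕ (Fin k₁ ⊕ Fin k₂)) where
  Adj := bugAdj p k₁ k₂
  symm := ⟨by
    rintro (a | i | i) (b | j | j) h <;> simp only [bugAdj] at h ⊢ <;> tauto⟩
  loopless := ⟨by
    rintro (a | i | i) h <;> simp only [bugAdj] at h <;> first | tauto | omega⟩

/-! ## Decomposition of the distance sum -/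

section decomp

variable {V : Type} [Fintype V] [DecidableEq V] {G : SimpleGraph V}

/-- The vertex set of a path. -/
def pathSet (v : ℕ → V) (D : ℕ) : Finset V := (range (D + 1)).image v

theorem card_pathSet {v : ℕ → V} {D : ℕ} (hv : Set.InjOn v (range (D + 1) : Set ℕ)) :
    (pathSet v D).card = D + 1 := by
  rw [pathSet, card_image_of_injOn hv, card_range]

theorem sum_decomp {v : ℕ → V} {D : ℕ} (hv : Set.InjOn v (range (D + 1) : Set ℕ)) :
    ∑ x : V, ∑ y : V, G.dist x y =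
      ∑ i ∈ range (D + 1), ∑ j ∈ range (D + 1), G.dist (v i) (v j) +
      2 * ∑ w ∈ (pathSet v D)ᶜ, ∑ i ∈ range (D + 1), G.dist w (v i) +
      ∑ w ∈ (pathSet v D)ᶜ, ∑ x ∈ (pathSet v D)ᶜ, G.dist w x := by
  have h0 : ∀ f : V → ℕ, ∑ x : V, f x = ∑ i ∈ range (D + 1), f (v i) +
      ∑ w ∈ (pathSet v D)ᶜ, f w := by
    intro f
    rw [← sum_add_sum_compl (pathSet v D) f, pathSet, sum_image hv]
  rw [h0]
  have h1 : ∀ x, ∑ y : V, G.dist x y = ∑ i ∈ range (D + 1), G.dist x (v i) +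
      ∑ w ∈ (pathSet v D)ᶜ, G.dist x w := fun x => h0 _
  simp only [h1, sum_add_distrib]
  have h2 : ∑ i ∈ range (D + 1), ∑ w ∈ (pathSet v D)ᶜ, G.dist (v i) w =
      ∑ w ∈ (pathSet v D)ᶜ, ∑ i ∈ range (D + 1), G.dist w (v i) := by
    rw [sum_comm]
    refine sum_congr rfl (fun w _ => sum_congr rfl (fun i _ => ?_))
    rw [SimpleGraph.dist_comm]
  rw [h2]
  ring

/-- The optimal value of the distance sum. -/
def opt (n D : ℕ) : ℕ :=
  ∑ i ∈ range (D + 1), ∑ j ∈ range (D + 1), ((i - j) + (j - i)) +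
    (n - (D + 1)) * ∑ i ∈ range (D + 1), max ((D - 2 * i) + (2 * i - D)) 2 +
    (n - (D + 1)) * (n - (D + 1) - 1)

theorem sum_reflect (D : ℕ) (f : ℕ → ℕ) :
    2 * ∑ i ∈ range (D + 1), f i = ∑ i ∈ range (D + 1), (f i + f (D - i)) := by
  rw [sum_add_distrib, sum_range_reflect (fun i => f i) (D + 1) |>.symm.trans ?_]
  · have : ∑ i ∈ range (D + 1), f (D - i) = ∑ i ∈ range (D + 1), f i := by
      have := sum_range_reflect f (D + 1)
      simpa using this
    rw [this]
    ring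
  · have := sum_range_reflect f (D + 1)
    simpa using this

theorem lower (hG : G.Connected) {v : ℕ → V} {D : ℕ}
    (hv : Set.InjOn v (range (D + 1) : Set ℕ))
    (hd : ∀ i ≤ D, ∀ j ≤ D, (i - j) + (j - i) ≤ G.dist (v i) (v j)) :
    opt (Fintype.card V) D ≤ ∑ x : V, ∑ y : V, G.dist x y := by
  rw [sum_decomp hv, opt]
  have hc : ((pathSet v D)ᶜ).card = Fintype.card V - (D + 1) := by
    rw [card_compl, card_pathSet hv]
  have h1 : ∑ i ∈ range (D + 1), ∑ j ∈ range (D + 1), ((i - j) + (j - i)) ≤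
      ∑ i ∈ range (D + 1), ∑ j ∈ range (D + 1), G.dist (v i) (v j) := by
    refine sum_le_sum (fun i hi => sum_le_sum (fun j hj => ?_))
    rw [mem_range] at hi hj
    exact hd i (by omega) j (by omega)
  have hne : ∀ w ∈ (pathSet v D)ᶜ, ∀ i ≤ D, w ≠ v i := by
    intro w hw i hi h
    rw [mem_compl] at hw
    exact hw (h ▸ mem_image_of_mem v (mem_range.2 (by omega)))
  have h2 : ∀ w ∈ (pathSet v D)ᶜ, ∑ i ∈ range (D + 1), max ((D - 2 * i) + (2 * i - D)) 2 ≤
      2 * ∑ i ∈ range (D + 1), G.dist w (v i) := by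
    intro w hw
    rw [sum_reflect D (fun i => G.dist w (v i))]
    refine sum_le_sum (fun i hi => ?_)
    rw [mem_range] at hi
    have h3 : 0 < G.dist w (v i) := hG.pos_dist_of_ne (hne w hw i (by omega))
    have h4 : 0 < G.dist w (v (D - i)) := hG.pos_dist_of_ne (hne w hw (D - i) (by omega))
    have h5 := hG.dist_triangle (u := v i) (v := w) (w := v (D - i))
    rw [SimpleGraph.dist_comm (u := v i) (v := w)] at h5
    have h6 := hd i (by omega) (D - i) (by omega)
    omega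
  have h3 : (Fintype.card V - (D + 1)) * ∑ i ∈ range (D + 1),
      max ((D - 2 * i) + (2 * i - D)) 2 ≤
      2 * ∑ w ∈ (pathSet v D)ᶜ, ∑ i ∈ range (D + 1), G.dist w (v i) := by
    rw [← hc, ← smul_eq_mul, ← sum_const, mul_sum]
    exact sum_le_sum h2
  have h4 : (Fintype.card V - (D + 1)) * (Fintype.card V - (D + 1) - 1) ≤
      ∑ w ∈ (pathSet v D)ᶜ, ∑ x ∈ (pathSet v D)ᶜ, G.dist w x := by
    rw [← hc, ← smul_eq_mul, ← sum_const]
    refine sum_le_sum (fun w hw => ?_)
    rw [← card_erase_of_mem hw, card_eq_sum_ones]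
    refine (sum_le_sum (fun x hx => ?_)).trans (sum_le_sum_of_subset (erase_subset w _))
    rw [mem_erase] at hx
    exact hG.pos_dist_of_ne (fun h => hx.1 h.symm)
  omega

theorem upper {v : ℕ → V} {D c : ℕ} (hc : D = 2 * c ∨ D = 2 * c + 1)
    (hv : Set.InjOn v (range (D + 1) : Set ℕ))
    (hd : ∀ i ≤ D, ∀ j ≤ D, G.dist (v i) (v j) ≤ (i - j) + (j - i))
    (hw : ∀ w ∈ (pathSet v D)ᶜ, ∀ i ≤ D, G.dist w (v i) ≤ max ((i - c) + (c - i)) 1)
    (hww : ∀ w ∈ (pathSet v D)ᶜ, ∀ x ∈ (pathSet v D)ᶜ, G.dist w x ≤ 1) :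
    ∑ x : V, ∑ y : V, G.dist x y ≤ opt (Fintype.card V) D := by
  rw [sum_decomp hv, opt]
  have hcard : ((pathSet v D)ᶜ).card = Fintype.card V - (D + 1) := by
    rw [card_compl, card_pathSet hv]
  have h1 : ∑ i ∈ range (D + 1), ∑ j ∈ range (D + 1), G.dist (v i) (v j) ≤
      ∑ i ∈ range (D + 1), ∑ j ∈ range (D + 1), ((i - j) + (j - i)) := by
    refine sum_le_sum (fun i hi => sum_le_sum (fun j hj => ?_))
    rw [mem_range] at hi hj
    exact hd i (by omega) j (by omega)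
  have h2 : ∀ w ∈ (pathSet v D)ᶜ, 2 * ∑ i ∈ range (D + 1), G.dist w (v i) ≤
      ∑ i ∈ range (D + 1), max ((D - 2 * i) + (2 * i - D)) 2 := by
    intro w hw'
    rw [sum_reflect D (fun i => G.dist w (v i))]
    refine sum_le_sum (fun i hi => ?_)
    rw [mem_range] at hi
    have h3 := hw w hw' i (by omega)
    have h4 := hw w hw' (D - i) (by omega)
    omega
  have h3 : 2 * ∑ w ∈ (pathSet v D)ᶜ, ∑ i ∈ range (D + 1), G.dist w (v i) ≤
      (Fintype.card V - (D + 1)) * ∑ i ∈ range (D + 1),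
      max ((D - 2 * i) + (2 * i - D)) 2 := by
    have h5 := sum_le_card_nsmul _ _ _ h2
    rw [smul_eq_mul, ← mul_sum] at h5
    rw [← hcard]
    exact h5
  have h4 : ∑ w ∈ (pathSet v D)ᶜ, ∑ x ∈ (pathSet v D)ᶜ, G.dist w x ≤
      (Fintype.card V - (D + 1)) * (Fintype.card V - (D + 1) - 1) := by
    rw [← hcard, ← smul_eq_mul, ← sum_const]
    refine sum_le_sum (fun w hw' => ?_)
    rw [← add_sum_erase _ _ hw', SimpleGraph.dist_self, zero_add, ← card_erase_of_mem hw',
      card_eq_sum_ones]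
    exact sum_le_sum (fun x hx => hww w hw' x (mem_of_mem_erase hx))
  omega

end decomp

/-! ## The lower bound for a general graph -/

section general

variable {V : Type} [Fintype V] [DecidableEq V] {G : SimpleGraph V}

theorem opt_le (hG : G.Connected) : opt (Fintype.card V) G.diam ≤ ∑ x : V, ∑ y : V, G.dist x y := by
  have hne := hG.nonempty
  obtain ⟨a, b, hab⟩ := G.exists_dist_eq_diam
  obtain ⟨w, hw⟩ := hG.exists_walk_length_eq_dist a b
  have hdist : ∀ i ≤ G.diam, G.dist a (w.getVert i) = i := by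
    intro i hi
    have h1 : G.dist a (w.getVert i) ≤ i := by
      have := dist_le (w.take i)
      simp at this
      omega
    have h2 : G.dist (w.getVert i) b ≤ G.diam - i := by
      have := dist_le (w.drop i)
      simp at this
      omega
    have h3 := hG.dist_triangle (u := a) (v := w.getVert i) (w := b)
    omega
  refine lower hG (v := w.getVert) ?_ ?_
  · intro i hi j hj hij
    simp only [coe_range, Set.mem_Iio] at hi hj
    rw [← hdist i (by omega), ← hdist j (by omega), hij]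
  · intro i hi j hj
    have h1 := hG.dist_triangle (u := a) (v := w.getVert i) (w := w.getVert j)
    have h2 := hG.dist_triangle (u := a) (v := w.getVert j) (w := w.getVert i)
    rw [SimpleGraph.dist_comm (u := w.getVert j)] at h2
    rw [hdist i hi, hdist j hj] at h1 h2
    omega

end general

/-! ## The bug -/

section bug

variable (p k₁ k₂ : ℕ)

/-- The level of a vertex of the bug. -/
def lev : Fin p ⊕ (Fin k₁ ⊕ Fin k₂) → ℕ
  | .inl a => if a.val = 0 then k₁ else if a.val = 1 then k₁ + 2 else k₁ + 1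
  | .inr (.inl i) => k₁ - 1 - i.val
  | .inr (.inr i) => k₁ + 3 + i.val

theorem bug_adj_iff (x y : Fin p ⊕ (Fin k₁ ⊕ Fin k₂)) :
    (bug p k₁ k₂).Adj x y ↔ x ≠ y ∧ lev p k₁ k₂ x ≤ lev p k₁ k₂ y + 1 ∧
      lev p k₁ k₂ y ≤ lev p k₁ k₂ x + 1 := by
  show bugAdj p k₁ k₂ x y ↔ _
  rcases x with (a | i | i) <;> rcases y with (b | j | j) <;>
    simp only [bugAdj, lev, ne_eq, Sum.inl.injEq, Sum.inr.injEq, reduceCtorEq, not_false_eq_true,
      true_and, false_iff, Fin.ext_iff]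
  · split_ifs <;> omega
  · have := j.isLt
    split_ifs <;> omega
  · have := j.isLt
    split_ifs <;> omega
  · have := i.isLt
    split_ifs <;> omega
  · have := i.isLt
    have := j.isLt
    omega
  · have := i.isLt
    have := j.isLt
    omega
  · have := i.isLt
    split_ifs <;> omega
  · have := i.isLt
    have := j.isLt
    omega
  · have := i.isLt
    have := j.isLt
    omega

theorem lev_inj (x y : Fin p ⊕ (Fin k₁ ⊕ Fin k₂)) (h : lev p k₁ k₂ x = lev p k₁ k₂ y)
    (hx : lev p k₁ k₂ x ≠ k₁ + 1) : x = y := by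
  rcases x with (a | i | i) <;> rcases y with (b | j | j) <;>
    simp only [lev, Sum.inl.injEq, Sum.inr.injEq, reduceCtorEq, Fin.ext_iff] at h hx ⊢
  · split_ifs at h hx <;> omega
  · have := j.isLt
    split_ifs at h hx <;> omega
  · have := j.isLt
    split_ifs at h hx <;> omega
  · have := i.isLt
    split_ifs at h hx <;> omega
  · have := i.isLt
    have := j.isLt
    omega
  · have := i.isLt
    have := j.isLt
    omega
  · have := i.isLt
    split_ifs at h hx <;> omega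
  · have := i.isLt
    have := j.isLt
    omega
  · have := i.isLt
    have := j.isLt
    omega

theorem lev_surj (hp : 3 ≤ p) (i : ℕ) (hi : i ≤ k₁ + k₂ + 2) : ∃ x, lev p k₁ k₂ x = i := by
  by_cases h1 : i < k₁
  · exact ⟨.inr (.inl ⟨k₁ - 1 - i, by omega⟩), by simp only [lev]; omega⟩
  by_cases h2 : i = k₁
  · exact ⟨.inl ⟨0, by omega⟩, by simp only [lev]; simp [h2]⟩
  by_cases h3 : i = k₁ + 1
  · exact ⟨.inl ⟨2, by omega⟩, by simp only [lev]; simp [h3]⟩
  by_cases h4 : i = k₁ + 2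
  · exact ⟨.inl ⟨1, by omega⟩, by simp only [lev]; simp [h4]⟩
  · exact ⟨.inr (.inr ⟨i - k₁ - 3, by omega⟩), by simp only [lev]; omega⟩

theorem lev_le (x : Fin p ⊕ (Fin k₁ ⊕ Fin k₂)) : lev p k₁ k₂ x ≤ k₁ + k₂ + 2 := by
  rcases x with (a | i | i)
  · simp only [lev]
    split_ifs <;> omega
  · simp only [lev]
    omega
  · have := i.isLt
    simp only [lev]
    omega

theorem exists_walk (hp : 3 ≤ p) (k : ℕ) (x y : Fin p ⊕ (Fin k₁ ⊕ Fin k₂))
    (h : lev p k₁ k₂ y = lev p k₁ k₂ x + (k + 1)) :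
    ∃ w : (bug p k₁ k₂).Walk x y, w.length = k + 1 := by
  induction k generalizing x with
  | zero =>
    have hadj : (bug p k₁ k₂).Adj x y := by
      rw [bug_adj_iff]
      refine ⟨?_, by omega, by omega⟩
      rintro rfl
      omega
    exact ⟨Walk.cons hadj Walk.nil, rfl⟩
  | succ k ih =>
    have hy := lev_le p k₁ k₂ y
    obtain ⟨z, hz⟩ := lev_surj p k₁ k₂ hp (lev p k₁ k₂ x + 1) (by omega)
    obtain ⟨w, hw⟩ := ih z (by omega)
    have hadj : (bug p k₁ k₂).Adj x z := by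
      rw [bug_adj_iff]
      refine ⟨?_, by omega, by omega⟩
      rintro rfl
      omega
    exact ⟨Walk.cons hadj w, by rw [Walk.length_cons, hw]⟩

theorem dist_le_lev (hp : 3 ≤ p) (x y : Fin p ⊕ (Fin k₁ ⊕ Fin k₂)) :
    (bug p k₁ k₂).dist x y ≤ max ((lev p k₁ k₂ x - lev p k₁ k₂ y) +
      (lev p k₁ k₂ y - lev p k₁ k₂ x)) 1 := by
  rcases lt_trichotomy (lev p k₁ k₂ x) (lev p k₁ k₂ y) with h | h | h
  · obtain ⟨w, hw⟩ := exists_walk p k₁ k₂ hp (lev p k₁ k₂ y - lev p k₁ k₂ x - 1) x y (by omega)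
    have := dist_le w
    omega
  · by_cases hxy : x = y
    · subst hxy
      simp
    · have hadj : (bug p k₁ k₂).Adj x y := by
        rw [bug_adj_iff]
        exact ⟨hxy, by omega, by omega⟩
      rw [dist_eq_one_iff_adj.2 hadj]
      exact le_max_right _ _
  · obtain ⟨w, hw⟩ := exists_walk p k₁ k₂ hp (lev p k₁ k₂ x - lev p k₁ k₂ y - 1) y x (by omega)
    have := dist_le w
    rw [SimpleGraph.dist_comm] at this
    omega

theorem bug_connected (hp : 3 ≤ p) : (bug p k₁ k₂).Connected := by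
  have hne : Nonempty (Fin p ⊕ (Fin k₁ ⊕ Fin k₂)) := ⟨.inl ⟨0, by omega⟩⟩
  refine { preconnected := fun x y => ?_, nonempty := hne }
  rcases lt_trichotomy (lev p k₁ k₂ x) (lev p k₁ k₂ y) with h | h | h
  · obtain ⟨w, hw⟩ := exists_walk p k₁ k₂ hp (lev p k₁ k₂ y - lev p k₁ k₂ x - 1) x y (by omega)
    exact ⟨w⟩
  · by_cases hxy : x = y
    · subst hxy
      exact Reachable.refl _
    · have hadj : (bug p k₁ k₂).Adj x y := by
        rw [bug_adj_iff]
        exact ⟨hxy, by omega, by omega⟩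
      exact hadj.reachable
  · obtain ⟨w, hw⟩ := exists_walk p k₁ k₂ hp (lev p k₁ k₂ x - lev p k₁ k₂ y - 1) y x (by omega)
    exact ⟨w.reverse⟩

theorem lev_le_dist (hp : 3 ≤ p) (x y : Fin p ⊕ (Fin k₁ ⊕ Fin k₂)) :
    lev p k₁ k₂ y ≤ lev p k₁ k₂ x + (bug p k₁ k₂).dist x y := by
  obtain ⟨w, hw⟩ := (bug_connected p k₁ k₂ hp).exists_walk_length_eq_dist x y
  rw [← hw]
  clear hw
  induction w with
  | nil => simp
  | cons h q ih =>
    rw [bug_adj_iff] at h
    rw [Walk.length_cons]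
    omega

theorem le_diam_bug (hp : 3 ≤ p) : k₁ + k₂ + 2 ≤ (bug p k₁ k₂).diam := by
  obtain ⟨x, hx⟩ := lev_surj p k₁ k₂ hp 0 (by omega)
  obtain ⟨y, hy⟩ := lev_surj p k₁ k₂ hp (k₁ + k₂ + 2) le_rfl
  have hG := bug_connected p k₁ k₂ hp
  have hne := hG.nonempty
  have h1 := lev_le_dist p k₁ k₂ hp x y
  have h2 := (bug p k₁ k₂).dist_le_diam (connected_iff_ediam_ne_top.1 hG) (u := x) (v := y)
  omega

theorem bug_sum_le (hp : 3 ≤ p) {D c : ℕ} (hc : D = 2 * c ∨ D = 2 * c + 1) (h1 : k₁ + 1 = c)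
    (h2 : k₁ + k₂ + 2 = D) :
    ∑ x, ∑ y, (bug p k₁ k₂).dist x y ≤ opt (Fintype.card (Fin p ⊕ (Fin k₁ ⊕ Fin k₂))) D := by
  have hs : ∀ i, ∃ x, i ≤ D → lev p k₁ k₂ x = i := by
    intro i
    by_cases hi : i ≤ D
    · obtain ⟨x, hx⟩ := lev_surj p k₁ k₂ hp i (by omega)
      exact ⟨x, fun _ => hx⟩
    · exact ⟨.inl ⟨0, by omega⟩, fun h => absurd h hi⟩
  choose v hv using hs
  have hlev : ∀ w ∈ (pathSet v D)ᶜ, lev p k₁ k₂ w = c := by
    intro w hw
    by_contra hne
    rw [mem_compl] at hw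
    apply hw
    have h3 := lev_le p k₁ k₂ w
    have h4 := hv (lev p k₁ k₂ w) (by omega)
    have h5 := lev_inj p k₁ k₂ w (v (lev p k₁ k₂ w)) h4.symm (by omega)
    rw [h5]
    exact mem_image_of_mem v (mem_range.2 (by omega))
  refine upper (v := v) hc ?_ ?_ ?_ ?_
  · intro i hi j hj hij
    simp only [coe_range, Set.mem_Iio] at hi hj
    rw [← hv i (by omega), ← hv j (by omega), hij]
  · intro i hi j hj
    have h3 := dist_le_lev p k₁ k₂ hp (v i) (v j)
    rw [hv i hi, hv j hj] at h3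
    by_cases hij : i = j
    · subst hij
      simp
    · omega
  · intro w hw i hi
    have h3 := dist_le_lev p k₁ k₂ hp w (v i)
    rw [hv i hi, hlev w hw] at h3
    omega
  · intro w hw x hx
    have h3 := dist_le_lev p k₁ k₂ hp w x
    rw [hlev w hw, hlev x hx] at h3
    omega

end bug

/-! ## The main theorem -/

section main

theorem sum_pos_of_diam {V : Type} [Fintype V] {G : SimpleGraph V} (hd : 0 < G.diam)
    (hne : Nonempty V) : 0 < ∑ x : V, ∑ y : V, G.dist x y := by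
  obtain ⟨a, b, hab⟩ := G.exists_dist_eq_diam
  have h1 : G.dist a b ≤ ∑ y : V, G.dist a y :=
    single_le_sum (f := fun y => G.dist a y) (fun _ _ => Nat.zero_le _) (mem_univ b)
  have h2 : ∑ y : V, G.dist a y ≤ ∑ x : V, ∑ y : V, G.dist x y :=
    single_le_sum (f := fun x => ∑ y : V, G.dist x y) (fun _ _ => Nat.zero_le _) (mem_univ a)
  omega

theorem ratio_le {V W : Type} [Fintype V] [Fintype W] {G : SimpleGraph V} {H : SimpleGraph W}
    {n : ℕ} (hn : 3 ≤ n) (hV : Fintype.card V = n) (hW : Fintype.card W = n)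
    (hG : 0 < ∑ x : V, ∑ y : V, G.dist x y) (hH : 0 < ∑ x : W, ∑ y : W, H.dist x y)
    (h : G.diam * ∑ x : W, ∑ y : W, H.dist x y ≤ H.diam * ∑ x : V, ∑ y : V, G.dist x y) :
    ratio G ≤ ratio H := by
  unfold ratio avgDist
  rw [hV, hW]
  have h1 : ((∑ x : V, ∑ y : V, G.dist x y : ℕ) : ℚ) = ∑ x : V, ∑ y : V, (G.dist x y : ℚ) := by
    push_cast; rfl
  have h2 : ((∑ x : W, ∑ y : W, H.dist x y : ℕ) : ℚ) = ∑ x : W, ∑ y : W, (H.dist x y : ℚ) := by
    push_cast; rfl
  rw [← h1, ← h2]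
  set S := ∑ x : V, ∑ y : V, G.dist x y with hS
  set T := ∑ x : W, ∑ y : W, H.dist x y with hT
  have hn' : (3 : ℚ) ≤ n := by exact_mod_cast hn
  have hN : (0 : ℚ) < (n : ℚ) * (n - 1) := by apply mul_pos <;> linarith
  have hS' : (0 : ℚ) < (S : ℚ) := by exact_mod_cast hG
  have hT' : (0 : ℚ) < (T : ℚ) := by exact_mod_cast hH
  have h' : (G.diam : ℚ) * T ≤ H.diam * S := by exact_mod_cast h
  rw [div_div_eq_mul_div, div_div_eq_mul_div, div_le_div_iff₀ hS' hT']
  nlinarith

/-- The balanced bug with `n` vertices and diameter `D`. -/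
noncomputable def bugRatio (n D : ℕ) : ℚ := ratio (bug (n - D + 2) (D / 2 - 1) (D - 1 - D / 2))

theorem ratio_le_bugRatio {V : Type} [Fintype V] {G : SimpleGraph V} (hG : G.Connected)
    {n : ℕ} (hn : 3 ≤ n) (hV : Fintype.card V = n) :
    ∃ D ∈ Icc 2 (n - 1), ratio G ≤ bugRatio n D := by
  classical
  have hne := hG.nonempty
  have hnt : Nontrivial V := by
    rw [← Fintype.one_lt_card_iff_nontrivial]; omega
  have hd0 : G.diam ≠ 0 := connected_iff_diam_ne_zero.1 hG
  have hopt := opt_le hG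
  rw [hV] at hopt
  have hpos := sum_pos_of_diam (G := G) (by omega) hne
  -- the diameter is at most `n - 1`
  have hdn : G.diam ≤ n - 1 := by
    obtain ⟨a, b, hab⟩ := G.exists_dist_eq_diam
    obtain ⟨w, hw1, hw2⟩ := hG.exists_path_of_dist a b
    have := hw1.length_lt
    omega
  have hbug : ∀ D, 2 ≤ D → D ≤ n - 1 →
      D ≤ (bug (n - D + 2) (D / 2 - 1) (D - 1 - D / 2)).diam ∧
      ∑ x, ∑ y, (bug (n - D + 2) (D / 2 - 1) (D - 1 - D / 2)).dist x y ≤ opt n D ∧
      Fintype.card (Fin (n - D + 2) ⊕ (Fin (D / 2 - 1) ⊕ Fin (D - 1 - D / 2))) = n := by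
    intro D h1 h2
    have h3 := le_diam_bug (n - D + 2) (D / 2 - 1) (D - 1 - D / 2) (by omega)
    have h4 := bug_sum_le (n - D + 2) (D / 2 - 1) (D - 1 - D / 2) (by omega) (D := D)
      (c := D / 2) (by omega) (by omega) (by omega)
    have h5 : Fintype.card (Fin (n - D + 2) ⊕ (Fin (D / 2 - 1) ⊕ Fin (D - 1 - D / 2))) = n := by
      simp only [Fintype.card_sum, Fintype.card_fin]
      omega
    rw [h5] at h4
    exact ⟨by omega, h4, h5⟩
  by_cases hD : 2 ≤ G.diam
  · refine ⟨G.diam, mem_Icc.2 ⟨hD, hdn⟩, ?_⟩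
    obtain ⟨h1, h2, h3⟩ := hbug G.diam hD hdn
    refine ratio_le hn hV h3 hpos ?_ ?_
    · exact sum_pos_of_diam (by omega) ⟨.inl ⟨0, by omega⟩⟩
    · exact Nat.mul_le_mul h1 (h2.trans hopt)
  · have hD1 : G.diam = 1 := by omega
    refine ⟨2, mem_Icc.2 ⟨le_rfl, by omega⟩, ?_⟩
    obtain ⟨h1, h2, h3⟩ := hbug 2 le_rfl (by omega)
    refine ratio_le hn hV h3 hpos ?_ ?_
    · exact sum_pos_of_diam (by omega) ⟨.inl ⟨0, by omega⟩⟩
    · rw [hD1] at hopt ⊢
      obtain ⟨m, rfl⟩ : ∃ m, n = m + 3 := ⟨n - 3, by omega⟩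
      have e1 : opt (m + 3) 1 = (m + 3) * (m + 2) := by
        simp [opt, sum_range_succ]
        ring
      have e2 : opt (m + 3) 2 = (m + 3) * (m + 2) + 2 := by
        simp [opt, sum_range_succ]
        cases m with
        | zero => simp
        | succ m => simp; ring
      rw [e1] at hopt
      rw [e2] at h2
      have h4 : 6 ≤ (m + 3) * (m + 2) := by nlinarith
      refine le_trans ?_ (Nat.mul_le_mul h1 hopt)
      refine le_trans (Nat.mul_le_mul le_rfl h2) ?_
      omega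

end main

/-- **Extremal graphs for diameter over average distance.** -/
theorem result (n : ℕ) (hn : 3 ≤ n) : ∃ p k₁ k₂ : ℕ, 3 ≤ p ∧ p + k₁ + k₂ = n ∧
    k₁ ≤ k₂ + 1 ∧ k₂ ≤ k₁ + 1 ∧ (bug p k₁ k₂).Connected ∧
    ∀ (V : Type) [Fintype V] (G : SimpleGraph V), G.Connected → Fintype.card V = n →
      ratio G ≤ ratio (bug p k₁ k₂) := by
  obtain ⟨D, hD, hmax⟩ := exists_max_image (Icc 2 (n - 1)) (bugRatio n)
    ⟨2, mem_Icc.2 ⟨le_rfl, by omega⟩⟩
  rw [mem_Icc] at hD
  refine ⟨n - D + 2, D / 2 - 1, D - 1 - D / 2, by omega, by omega, by omega, by omega,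
    bug_connected _ _ _ (by omega), ?_⟩
  intro V _ G hG hV
  obtain ⟨D', hD', hle⟩ := ratio_le_bugRatio hG hn hV
  exact hle.trans (hmax D' hD')

end Pool.Agent.Results.MP_aedb6c_co.DiamOverAvg
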